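import Pool.Agent.V8H78.DV.Win
import Pool.Agent.Results.MP_05f553_nt.SequenceHeights

/-!
# Philippon's inequality for the rationals with a coordinate near any large divisor of almost all integers and shifted primes

Let `G` be a function with steps bounded below by a positive constant and growth at most `v^e`, for example `G v = a v^e`.
For all `m ≤ X` but a proportion `K y^(-c)`, for EVERY divisor `d ≥ y` of `m` and EVERY integer `n` with
`|n - G d| ≤ d^κ`, Philippon's inequality holds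
(1) if `2 A e / α + κ < 1`: for ALL `x` and all `y'` of height at most `n^A` with numerator `± n` or denominator `n`;
(2) if `e (2 γ + A / (α B)) + κ < 1` (every `α ≥ 1` is allowed): for all `x` of height at most `T n^γ` and these `y'`.
The same is true for the divisors `d ≥ y` of `p + b`, for all primes `p ≤ X` but `K (1 + |b|) (X / log X) y^(-c)`.

Here `y ≥ 1` is arbitrary: the divisors `d` can be of any size between `y` and `X`, also of the size of a constant. The
exceptional integers for the inequality are at most `X^(2 A / α + δ)` and `X^(2 γ + A / (α B) + δ)` up to `X`, and those `d`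
with an exceptional `n` close to `G d` are a set with a power saving. For the integers `m` the theorem follows from this by a
union bound; for the primes one needs the Brun-Titchmarsh inequality for the moduli `d ≤ √X` in the set, and for the larger
moduli a bound for the sum of their reciprocals. The tool is `Pool.Agent.N943.DS` (helper943), the counts are those of the
starting results `SequenceHeights`, `FewExceptions` and `AdditiveValues` of this problem.
-/

set_option autoImplicit false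

namespace Pool.Agent.Results.MP_05f553_nt.DivisorsOfShiftedPrimes

open Finset
open Pool.Agent.N733.TG (Expanding expanding_pow)
open Pool.Agent.V8H78.DV (AllDivisors all_nat)
open Pool.Agent.Results.MP_05f553_nt (FewExceptions.Holds)

/-- the height of a rational number -/
noncomputable def hgt (x : ℚ) : ℝ := max |((x.num : ℤ) : ℝ)| ((x.den : ℕ) : ℝ)

/-- the inequality holds for this `x` and all nonzero `y` of height at most `n ^ A` with numerator `± n` or
denominator `n` -/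
def Good (B : ℕ) (α β ε A : ℝ) (x : ℚ) (n : ℕ) : Prop :=
  ∀ y : ℚ, y ≠ 0 → x * y ^ B ≠ 1 → x * y ^ B ≠ -1 → (y.num.natAbs = n ∨ y.den = n) → hgt y ≤ (n : ℝ) ^ A →
    FewExceptions.Holds B α β ε x y

lemma good_iff (B : ℕ) (α β ε A : ℝ) (x : ℚ) (n : ℕ) :
    Good B α β ε A x n ↔ SequenceHeights.Good B α β ε A x n :=
  ⟨fun h y h1 h2 h3 h4 => h y h1 h2 h3 h4.1 h4.2, fun h y h1 h2 h3 h4 h5 => h y h1 h2 h3 ⟨h4, h5⟩⟩

open Classical in
/-- the rationals of bounded height -/
lemma rat_count (Z : ℝ) (hZ : 1 ≤ Z) : ∃ R : Finset ℚ, (∀ x : ℚ, hgt x ≤ Z → x ∈ R) ∧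
    (R.card : ℝ) ≤ 3 * Z ^ 2 := by
  set z : ℕ := ⌊Z⌋₊ with hz
  have hz1 : 1 ≤ z := Nat.le_floor (by exact_mod_cast hZ)
  refine ⟨(Icc (-(z : ℤ)) z ×ˢ Icc 1 z).image (fun t : ℤ × ℕ => (t.1 : ℚ) / (t.2 : ℚ)), ?_, ?_⟩
  · intro x hx
    rw [mem_image]
    unfold hgt at hx
    have h1 := (le_max_left _ _).trans hx
    have h2 := (le_max_right _ _).trans hx
    refine ⟨(x.num, x.den), ?_, Rat.num_div_den x⟩
    rw [mem_product, mem_Icc, mem_Icc]
    have h3 : x.num.natAbs ≤ z := by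
      apply Nat.le_floor
      rw [Nat.cast_natAbs]
      exact_mod_cast h1
    refine ⟨⟨by show -(z : ℤ) ≤ x.num; omega, by show x.num ≤ z; omega⟩, x.pos, Nat.le_floor h2⟩
  · have h1 : (((Icc (-(z : ℤ)) z ×ˢ Icc 1 z).image (fun t : ℤ × ℕ => (t.1 : ℚ) / (t.2 : ℚ))).card : ℝ) ≤
        (2 * z + 1) * z := by
      have h2 := card_image_le (s := Icc (-(z : ℤ)) z ×ˢ Icc 1 z)
        (f := fun t : ℤ × ℕ => (t.1 : ℚ) / (t.2 : ℚ))
      rw [card_product, Int.card_Icc, Nat.card_Icc] at h2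
      have h3 : ((z : ℤ) + 1 - -(z : ℤ)).toNat = 2 * z + 1 := by omega
      rw [h3] at h2
      have h4 : z + 1 - 1 = z := by omega
      rw [h4] at h2
      exact_mod_cast h2
    refine h1.trans ?_
    have h5 : (z : ℝ) ≤ Z := Nat.floor_le (by linarith)
    have h6 : (1 : ℝ) ≤ z := by exact_mod_cast hz1
    nlinarith

/-- the exceptional integers for the `x` of height at most `T n ^ γ` -/
def BadG (B : ℕ) (α β ε A T γ : ℝ) : Set ℕ :=
  {n : ℕ | ∃ x : ℚ, x ≠ 0 ∧ hgt x ≤ T * (n : ℝ) ^ γ ∧ ¬ Good B α β ε A x n}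

open Classical in
lemma countG (B : ℕ) (α β ε A T γ : ℝ) (hα : 1 ≤ α) (hβ : 0 ≤ β) (hε : ε < 1 / 2) (hB : 2 ≤ ε * B) (hA : 1 ≤ A)
    (hT : 1 ≤ T) (hγ : 0 ≤ γ) (δ : ℝ) (hδ : 0 < δ) : ∃ C : ℝ, ∀ X : ℕ, 1 ≤ X →
      (((Ioc 0 X).filter (fun m => m ∈ BadG B α β ε A T γ)).card : ℝ) ≤
        C * (X : ℝ) ^ (2 * γ + A / (α * B) + δ) := by
  have hA0 : 0 < A := by linarith
  have hα0 : 0 < α := by linarith
  obtain ⟨C, hC⟩ := FewExceptions.result B α β ε (δ / A) hα hβ hε hB (by positivity)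
  refine ⟨3 * T ^ 2 * (2 * |C|), fun X hX => ?_⟩
  have hX1 : (1 : ℝ) ≤ X := by exact_mod_cast hX
  have hX0 : (0 : ℝ) < X := by linarith
  obtain ⟨hfin, -, hcard⟩ := hC ((X : ℝ) ^ A) (Real.one_le_rpow hX1 hA0.le)
  have hXγ : (1 : ℝ) ≤ (X : ℝ) ^ γ := Real.one_le_rpow hX1 hγ
  obtain ⟨R, hR, hRc⟩ := rat_count (T * (X : ℝ) ^ γ) (one_le_mul_of_one_le_of_one_le hT hXγ)
  have hfin' : ∀ x : ℚ, {y : ℚ | (x, y) ∈ FewExceptions.Exceptions B α β ε ((X : ℝ) ^ A)}.Finite := fun x =>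
    hfin.preimage (Prod.mk_right_injective x).injOn
  set W : ℚ → Finset ℕ := fun x => ((hfin' x).toFinset.image (fun t => t.num.natAbs)) ∪
    ((hfin' x).toFinset.image (fun t => t.den)) with hW
  have hWc : ∀ x : ℚ, ((W x).card : ℝ) ≤ 2 * |C| * (X : ℝ) ^ (A / (α * B) + δ) := by
    intro x
    have h1 : (W x).card ≤ 2 * {y : ℚ | (x, y) ∈ FewExceptions.Exceptions B α β ε ((X : ℝ) ^ A)}.ncard := by
      have g1 := card_union_le ((hfin' x).toFinset.image (fun t => t.num.natAbs))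
        ((hfin' x).toFinset.image (fun t => t.den))
      have g3 := card_image_le (s := (hfin' x).toFinset) (f := fun t => t.num.natAbs)
      have g4 := card_image_le (s := (hfin' x).toFinset) (f := fun t => t.den)
      rw [Set.ncard_eq_toFinset_card _ (hfin' x)]
      rw [hW]
      show (((hfin' x).toFinset.image (fun t => t.num.natAbs)) ∪
        ((hfin' x).toFinset.image (fun t => t.den))).card ≤ _
      omega
    have h2 := hcard x
    have h3 : ((X : ℝ) ^ A) ^ (1 / (α * B) + δ / A) = (X : ℝ) ^ (A / (α * B) + δ) := by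
      rw [← Real.rpow_mul hX0.le]
      congr 1
      field_simp
    rw [h3] at h2
    have h4 : C * (X : ℝ) ^ (A / (α * B) + δ) ≤ |C| * (X : ℝ) ^ (A / (α * B) + δ) :=
      mul_le_mul_of_nonneg_right (le_abs_self C) (by positivity)
    have h5 : ((W x).card : ℝ) ≤
        2 * ({y : ℚ | (x, y) ∈ FewExceptions.Exceptions B α β ε ((X : ℝ) ^ A)}.ncard : ℝ) := by
      exact_mod_cast h1
    linarith
  have hsub : (Ioc 0 X).filter (fun m => m ∈ BadG B α β ε A T γ) ⊆ R.biUnion W := by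
    intro n hn
    rw [mem_filter, mem_Ioc] at hn
    obtain ⟨⟨hn0, hnX⟩, x, hx, hxh, hg⟩ := hn
    have hnX' : (n : ℝ) ≤ X := by exact_mod_cast hnX
    unfold Good at hg
    push Not at hg
    obtain ⟨y, hy, h1, h2, h3, h4, h5⟩ := hg
    rw [mem_biUnion]
    refine ⟨x, hR x (hxh.trans ?_), ?_⟩
    · exact mul_le_mul_of_nonneg_left (Real.rpow_le_rpow (Nat.cast_nonneg _) hnX' hγ) (by linarith)
    · have hmem : y ∈ (hfin' x).toFinset := by
        rw [Set.Finite.mem_toFinset]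
        refine ⟨hx, hy, h1, h2, ?_, h5⟩
        exact h4.trans (Real.rpow_le_rpow (Nat.cast_nonneg _) hnX' hA0.le)
      rw [hW, mem_union, mem_image, mem_image]
      rcases h3 with h3 | h3
      · exact Or.inl ⟨y, hmem, h3⟩
      · exact Or.inr ⟨y, hmem, h3⟩
  have h1 : (((Ioc 0 X).filter (fun m => m ∈ BadG B α β ε A T γ)).card : ℝ) ≤ ∑ x ∈ R, ((W x).card : ℝ) := by
    have := (card_le_card hsub).trans card_biUnion_le
    exact_mod_cast this
  refine h1.trans ((sum_le_sum (fun x _ => hWc x)).trans ?_)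
  rw [sum_const, nsmul_eq_mul]
  have h3 : (T * (X : ℝ) ^ γ) ^ 2 * (X : ℝ) ^ (A / (α * B) + δ) =
      T ^ 2 * (X : ℝ) ^ (2 * γ + A / (α * B) + δ) := by
    have h4 : ((X : ℝ) ^ γ) ^ 2 = (X : ℝ) ^ (2 * γ) := by
      rw [← Real.rpow_natCast, ← Real.rpow_mul hX0.le]
      congr 1
      push_cast
      ring
    rw [mul_pow, h4, mul_assoc, ← Real.rpow_add hX0]
    congr 2
    ring
  calc (R.card : ℝ) * (2 * |C| * (X : ℝ) ^ (A / (α * B) + δ))
      ≤ (3 * (T * (X : ℝ) ^ γ) ^ 2) * (2 * |C| * (X : ℝ) ^ (A / (α * B) + δ)) :=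
        mul_le_mul_of_nonneg_right hRc (by positivity)
    _ = 3 * (2 * |C|) * ((T * (X : ℝ) ^ γ) ^ 2 * (X : ℝ) ^ (A / (α * B) + δ)) := by ring
    _ = _ := by rw [h3]; ring

/-- **Philippon's inequality near all large divisors of almost all integers and shifted primes.** Let `α ≥ 1`, `β ≥ 0`,
`ε < 1/2`, `ε B ≥ 2`, `A ≥ 1`, `κ ≥ 0`, and let `G` have steps `≥ a > 0` and growth at most `v^e`. There are `c > 0` and
`K` such that for all `X` and `y ≥ 1`, for all but at most `K X y^(-c)` of the natural numbers `m ≤ X` the property below holds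
for ALL divisors `d ≥ y` of `m`, and for all integers `b` and `1 ≤ y ≤ X`, `X ≥ 4`, for all but at most
`K (1 + |b|) (X / log X) y^(-c)` of the primes `p`, `|b| < p ≤ X`, it holds for ALL divisors `d ≥ y` of `p + b`
(`AllDivisors`). The property: for EVERY natural `n` with `|n - G d| ≤ d^κ` the inequality holds for all `y' ≠ 0` of height at
most `n^A` with numerator `± n` or denominator `n` and
(1) for ALL `x ≠ 0`, if `2 A e / α + κ < 1`;
(2) for all `x ≠ 0` of height at most `T n^γ`, if `e (2 γ + A / (α B)) + κ < 1` (`T` any constant, `γ ≥ 0`).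
Examples of `G`: `a v^e` with `a > 0`, `e ≥ 1`. -/
theorem result (B : ℕ) (α β ε A κ : ℝ) (hα : 1 ≤ α) (hβ : 0 ≤ β) (hε : ε < 1 / 2) (hB : 2 ≤ ε * B) (hA : 1 ≤ A)
    (hκ : 0 ≤ κ) :
    (∀ (G : ℕ → ℝ) (e : ℝ), Expanding G e →
      (2 * A * e / α + κ < 1 → ∃ c K : ℝ, 0 < c ∧
        AllDivisors c K (fun d => ∀ n : ℕ, |(n : ℝ) - G d| ≤ (d : ℝ) ^ κ → ∀ x : ℚ, x ≠ 0 → Good B α β ε A x n)) ∧
      (∀ T γ : ℝ, 0 ≤ γ → e * (2 * γ + A / (α * B)) + κ < 1 → ∃ c K : ℝ, 0 < c ∧
        AllDivisors c K (fun d => ∀ n : ℕ, |(n : ℝ) - G d| ≤ (d : ℝ) ^ κ → ∀ x : ℚ, x ≠ 0 →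
          hgt x ≤ T * (n : ℝ) ^ γ → Good B α β ε A x n))) ∧
    ∀ a e : ℝ, 0 < a → 1 ≤ e → Expanding (fun v => a * (v : ℝ) ^ e) e := by
  classical
  have hA0 : 0 < A := by linarith
  have hα0 : 0 < α := by linarith
  refine ⟨fun G e hG => ⟨fun h1 => ?_, fun T γ hγ h1 => ?_⟩, fun a e ha he => expanding_pow ha he⟩
  · obtain ⟨c, K, hc, -, h⟩ := all_nat (SequenceHeights.Bad B α β ε A) hG (s := A * (2 / α)) (κ := κ) (by positivity) hκ
      (by
        have : e * (A * (2 / α)) + κ = 2 * A * e / α + κ := by ring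
        rw [this]
        exact h1) (fun δ hδ => by
        obtain ⟨C, hC⟩ := SequenceHeights.count B α β ε A hα hβ hε hB hA δ hδ
        exact ⟨C, fun X hX => hC X hX⟩)
      (Q := fun d => ∀ n : ℕ, |(n : ℝ) - G d| ≤ (d : ℝ) ^ κ → ∀ x : ℚ, x ≠ 0 → Good B α β ε A x n) (by
        intro d _ hd n hn x hx
        by_contra hg
        exact hd n (Or.inr ⟨x, hx, fun h => hg ((good_iff _ _ _ _ _ _ _).2 h)⟩) hn)
    exact ⟨c, K, hc, h⟩
  · have hT' : (1 : ℝ) ≤ max T 1 := le_max_right _ _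
    obtain ⟨c, K, hc, -, h⟩ := all_nat (BadG B α β ε A (max T 1) γ) hG (s := 2 * γ + A / (α * B)) (κ := κ)
      (by positivity) hκ h1 (fun δ hδ => by
        obtain ⟨C, hC⟩ := countG B α β ε A (max T 1) γ hα hβ hε hB hA hT' hγ δ hδ
        exact ⟨C, fun X hX => hC X hX⟩)
      (Q := fun d => ∀ n : ℕ, |(n : ℝ) - G d| ≤ (d : ℝ) ^ κ → ∀ x : ℚ, x ≠ 0 →
          hgt x ≤ T * (n : ℝ) ^ γ → Good B α β ε A x n) (by
        intro d _ hd n hn x hx hh
        by_contra hg
        refine hd n (Or.inr ⟨x, hx, hh.trans ?_, hg⟩) hn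
        exact mul_le_mul_of_nonneg_right (le_max_left _ _) (by positivity))
    exact ⟨c, K, hc, h⟩

end Pool.Agent.Results.MP_05f553_nt.DivisorsOfShiftedPrimes
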