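import Pool.Agent.H78R2.Phil.Main

/-!
# Philippon's conjecture: equivalence with the weak abc conjecture and self-improvement

`Holds B α β ε` is the inequality of the question for all its pairs `(x, y)`, `WeakAbc K` is the abc
inequality `c ≤ κ R(abc) ^ K` with some constant `κ`.
-/

set_option autoImplicit false

namespace Pool.Agent.Results.MP_05f553_nt.SelfImprovement

open Pool.Agent.H78R2.Phil Pool.Agent.H78R2.Abc

/-- the logarithmic height -/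
noncomputable def h (r : ℚ) : ℝ := Real.log (max |(r.num : ℝ)| (r.den : ℝ))

/-- The inequality of the question, with the constants `B`, `α`, `β`, `ε`, for all nonzero rationals
`x`, `y` with `x y ^ B ≠ ± 1`. -/
def Holds (B : ℕ) (α β ε : ℝ) : Prop :=
  ∀ x y : ℚ, x ≠ 0 → y ≠ 0 → x * y ^ B ≠ 1 → x * y ^ B ≠ -1 →
    -(∑ᶠ p ∈ {p : ℕ | p.Prime ∧ padicNorm p (x * y ^ B + 1) < 1},
        Real.log ((padicNorm p (x * y ^ B + 1) : ℚ) : ℝ))
      ≤ α * B * h x + ε * B * h y + B * (α * B + ε) *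
          (β + ∑ᶠ p ∈ {p : ℕ | p.Prime ∧ padicNorm p (x * y ^ B + 1) < 1}, Real.log (p : ℝ))

/-- The question. -/
def Q1 : Prop := ∃ B : ℕ, 0 < B ∧ ∃ α β ε : ℝ, 1 ≤ α ∧ 0 ≤ β ∧ 0 < ε ∧ ε < 1 / 2 ∧ Holds B α β ε

/-- The abc inequality with the exponent `K`, `R(n)` being the product of the primes dividing `n`. -/
def WeakAbc (K : ℝ) : Prop :=
  ∃ κ : ℝ, ∀ a b c : ℕ, 0 < a → 0 < b → Nat.Coprime a b → a + b = c →
    (c : ℝ) ≤ κ * ((∏ p ∈ (a * b * c).primeFactors, p : ℕ) : ℝ) ^ K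

theorem holds_iff {B : ℕ} {α β ε : ℝ} : Holds B α β ε ↔ Ineq ε α β B := by
  constructor
  · intro H x y hx hy h1 h2
    have := H x y hx hy h1 (fun h3 => h2 (by rw [h3]; norm_num))
    refine this.trans (le_of_eq ?_)
    simp only [h, ht, S]
    ring
  · intro H x y hx hy h1 h2
    have := H x y hx hy h1 (fun h3 => h2 (by linarith))
    refine this.trans (le_of_eq ?_)
    simp only [h, ht, S]
    ring

theorem exists_abcWith {K : ℝ} (hW : WeakAbc K) : ∃ κ : ℝ, 1 ≤ κ ∧ AbcWith K κ := by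
  obtain ⟨κ, hκ⟩ := hW
  refine ⟨max κ 1, le_max_right _ _, fun a b c ha hb hab hc => ?_⟩
  refine (hκ a b c ha hb hab hc).trans ?_
  exact mul_le_mul_of_nonneg_right (le_max_left _ _) (by positivity)

theorem abcWith_mono {K K' κ : ℝ} (hκ : 0 ≤ κ) (hK : K ≤ K') (hA : AbcWith K κ) : AbcWith K' κ := by
  intro a b c ha hb hab hc
  refine (hA a b c ha hb hab hc).trans (mul_le_mul_of_nonneg_left ?_ hκ)
  exact Real.rpow_le_rpow_of_exponent_le (by exact_mod_cast rad_pos _) hK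

/-- the inequality becomes weaker when `ε` increases -/
theorem ineq_mono {B : ℕ} {α β ε ε' : ℝ} (hβ : 0 ≤ β) (hε : ε ≤ ε') (H : Ineq ε α β B) :
    Ineq ε' α β B := by
  intro x y hx hy h1 h2
  refine (H x y hx hy h1 h2).trans ?_
  rw [rad_sum h2]
  have hR : 0 ≤ Real.log (rad (x * y ^ B + 1).num.natAbs) :=
    Real.log_nonneg (by exact_mod_cast rad_pos _)
  have hhy := ht_nonneg y
  gcongr

/-- the sharp threshold: every `B > 2 K` -/
theorem ineq_of_abc_sharp {K κ : ℝ} (hK : 1 ≤ K) (hκ : 1 ≤ κ) (hA : AbcWith K κ) {ε : ℝ}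
    (hε : 0 < ε) {B : ℕ} (hB : 2 * K < B) :
    ∃ α : ℝ, 1 ≤ α ∧ Ineq ε α (Real.log κ) B := by
  have hd : 0 < (B : ℝ) - 2 * K := by linarith
  have hd' : 0 < ((B : ℝ) - 2 * K)⁻¹ := inv_pos.2 hd
  obtain ⟨D, hD⟩ : ∃ D : ℝ, D = ((B : ℝ) - 2 * K)⁻¹ := ⟨_, rfl⟩
  rw [← hD] at hd'
  have hDd : D * ((B : ℝ) - 2 * K) = 1 := by rw [hD]; exact inv_mul_cancel₀ hd.ne'
  refine ⟨2 * K + 2 * K * D * (2 * K + 2) + 1, by nlinarith [mul_pos (by linarith : 0 < K) hd'], ?_⟩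
  intro x y hx hy _ hN
  obtain ⟨h1, h2⟩ := bounds hκ hA (by linarith) hx hy hN
  rw [lhs_eq hN, rad_sum hN]
  refine h2.trans ?_
  have hhx := ht_nonneg x
  have hhy := ht_nonneg y
  have hlκ : 0 ≤ Real.log κ := Real.log_nonneg hκ
  have hR : 0 ≤ Real.log (rad (x * y ^ B + 1).num.natAbs) :=
    Real.log_nonneg (by exact_mod_cast rad_pos _)
  obtain ⟨R, hRdef⟩ : ∃ R : ℝ, R = Real.log (rad (x * y ^ B + 1).num.natAbs) := ⟨_, rfl⟩
  rw [← hRdef] at h1 h2 hR ⊢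
  have h3 : B * ht y ≤ 2 * ht x + ht (x * y ^ B) := ht_lower hx hy B
  -- the height of `y` is bounded by the other quantities
  have h4 : ((B : ℝ) - 2 * K) * ht y ≤ (2 * K + 2) * ht x + K * R + Real.log κ := by linarith
  have h5 : ht y ≤ D * ((2 * K + 2) * ht x + K * R + Real.log κ) := by
    have := mul_le_mul_of_nonneg_left h4 hd'.le
    rw [← mul_assoc, hDd, one_mul] at this
    exact this
  have hK0 : 0 < K := by linarith
  have hB1 : (1 : ℝ) ≤ B := by linarith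
  have hDK : 0 ≤ K * D := by positivity
  -- collect
  have h6 : 2 * K * ht y ≤ 2 * K * D * (2 * K + 2) * ht x + 2 * K * D * K * R +
      2 * K * D * Real.log κ := by
    have := mul_le_mul_of_nonneg_left h5 (by positivity : 0 ≤ 2 * K)
    linarith
  obtain ⟨α, hα⟩ : ∃ α : ℝ, α = 2 * K + 2 * K * D * (2 * K + 2) + 1 := ⟨_, rfl⟩
  rw [← hα]
  have hα0 : 0 ≤ α := by rw [hα]; positivity
  have c1 : (2 * K + 2 * K * D * (2 * K + 2)) * ht x ≤ B * (α * ht x) := by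
    have e : (2 * K + 2 * K * D * (2 * K + 2)) * ht x ≤ α * ht x :=
      mul_le_mul_of_nonneg_right (by rw [hα]; linarith) hhx
    have e2 : 1 * (α * ht x) ≤ B * (α * ht x) :=
      mul_le_mul_of_nonneg_right hB1 (by positivity)
    linarith
  have hBB : α ≤ (B : ℝ) * (α * B + ε) := by
    have e1 : α * 1 ≤ α * B := mul_le_mul_of_nonneg_left hB1 hα0
    have e2 : 1 * (α * B + ε) ≤ B * (α * B + ε) :=
      mul_le_mul_of_nonneg_right hB1 (by positivity)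
    linarith
  have hαK : 2 * K * D * K + K ≤ α := by
    rw [hα]
    nlinarith [mul_nonneg hDK hK0.le]
  have hαL : 2 * K * D + 1 ≤ α := by
    rw [hα]
    nlinarith [mul_nonneg hDK hK0.le]
  have c2 : (2 * K * D * K + K) * R ≤ B * (α * B + ε) * R :=
    mul_le_mul_of_nonneg_right (hαK.trans hBB) hR
  have c3 : (2 * K * D + 1) * Real.log κ ≤ B * (α * B + ε) * Real.log κ :=
    mul_le_mul_of_nonneg_right (hαL.trans hBB) hlκ
  have c4 : 0 ≤ (B : ℝ) * (ε * ht y) := by positivity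
  linarith

theorem weakAbc_of {B : ℕ} (hB : 0 < B) {α β ε : ℝ} (hα : 0 ≤ α) (hβ : 0 ≤ β) (hε : 0 < ε)
    (hε1 : ε < 1) (H : Ineq ε α β B) : WeakAbc (2 * (B * (α * B + ε)) / (1 - ε)) :=
  ⟨_, abc_of_ineq hε hε1 hα hβ hB H⟩

theorem uniform_of {K : ℝ} (hW : WeakAbc K) : ∃ β : ℝ, 0 ≤ β ∧ ∃ K' : ℝ, ∀ ε : ℝ, 0 < ε →
    ∀ B : ℕ, K' ≤ ε * B → K' ≤ B → Ineq ε 1 β B := by
  obtain ⟨κ, hκ, hA⟩ := exists_abcWith hW
  have hA' := abcWith_mono (by linarith) (le_max_left K 1) hA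
  refine ⟨Real.log κ, Real.log_nonneg hκ, 2 * max K 1, fun ε hε B hB hB' => ?_⟩
  rcases le_total ε 1 with h1 | h1
  · exact ineq_of_abc (le_max_right _ _) hκ hA' hε h1 hB
  · refine ineq_mono (Real.log_nonneg hκ) h1 ?_
    exact ineq_of_abc (le_max_right _ _) hκ hA' one_pos le_rfl (by linarith)

/-- **Philippon's conjecture is equivalent to the weak abc conjecture, and improves itself.**
(1) The statement of the question holds if and only if `c ≤ κ R(abc) ^ K` for some `K` and `κ`.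
(2) If the abc inequality holds with the exponent `K ≥ 1`, then EVERY `B > 2 K` and every `ε > 0` are
possible in the question, with some `α ≥ 1` and `β ≥ 0`.
(3) If the inequality of the question holds for one choice of `B₀ ≥ 1`, `α₀, β₀ ≥ 0` and `ε₀ < 1`, then
`c ≤ κ R(abc) ^ K` with `K = 2 B₀ (α₀ B₀ + ε₀) / (1 - ε₀)`, and there are `β ≥ 0` and `K'` such that it
holds with `α = 1`, this `β`, ARBITRARILY small `ε > 0`, and all `B ≥ max (K', K' / ε)`.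
(4) `B = 1` and `B = 2` are not possible with any `ε < 1`. -/
theorem result :
    (Q1 ↔ ∃ K : ℝ, WeakAbc K) ∧
    (∀ K : ℝ, 1 ≤ K → WeakAbc K → ∀ B : ℕ, 2 * K < B → ∀ ε : ℝ, 0 < ε →
      ∃ α β : ℝ, 1 ≤ α ∧ 0 ≤ β ∧ Holds B α β ε) ∧
    (∀ (B₀ : ℕ) (α₀ β₀ ε₀ : ℝ), 0 < B₀ → 0 ≤ α₀ → 0 ≤ β₀ → 0 < ε₀ → ε₀ < 1 →
      Holds B₀ α₀ β₀ ε₀ →
        WeakAbc (2 * (B₀ * (α₀ * B₀ + ε₀)) / (1 - ε₀)) ∧
        ∃ β K' : ℝ, 0 ≤ β ∧ ∀ ε : ℝ, 0 < ε → ∀ B : ℕ, K' ≤ ε * B → K' ≤ B → Holds B 1 β ε) ∧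
    (∀ (B : ℕ) (α β ε : ℝ), 0 < ε → ε < 1 → B = 1 ∨ B = 2 → ¬ Holds B α β ε) := by
  have key3 : ∀ (B₀ : ℕ) (α₀ β₀ ε₀ : ℝ), 0 < B₀ → 0 ≤ α₀ → 0 ≤ β₀ → 0 < ε₀ → ε₀ < 1 →
      Holds B₀ α₀ β₀ ε₀ →
        WeakAbc (2 * (B₀ * (α₀ * B₀ + ε₀)) / (1 - ε₀)) ∧
        ∃ β K' : ℝ, 0 ≤ β ∧ ∀ ε : ℝ, 0 < ε → ∀ B : ℕ, K' ≤ ε * B → K' ≤ B → Holds B 1 β ε := by
    intro B₀ α₀ β₀ ε₀ hB hα hβ hε hε1 H
    have hW := weakAbc_of hB hα hβ hε hε1 (holds_iff.1 H)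
    refine ⟨hW, ?_⟩
    obtain ⟨β, hβ0, K', hK'⟩ := uniform_of hW
    exact ⟨β, K', hβ0, fun ε hε B h1 h2 => holds_iff.2 (hK' ε hε B h1 h2)⟩
  have key2 : ∀ K : ℝ, 1 ≤ K → WeakAbc K → ∀ B : ℕ, 2 * K < B → ∀ ε : ℝ, 0 < ε →
      ∃ α β : ℝ, 1 ≤ α ∧ 0 ≤ β ∧ Holds B α β ε := by
    intro K hK hW B hB ε hε
    obtain ⟨κ, hκ, hA⟩ := exists_abcWith hW
    obtain ⟨α, hα, H⟩ := ineq_of_abc_sharp hK hκ hA hε hB
    exact ⟨α, Real.log κ, hα, Real.log_nonneg hκ, holds_iff.2 H⟩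
  refine ⟨⟨?_, ?_⟩, key2, key3, ?_⟩
  · rintro ⟨B, hB, α, β, ε, hα, hβ, hε, hε1, H⟩
    exact ⟨_, (key3 B α β ε hB (by linarith) hβ hε (by linarith) H).1⟩
  · rintro ⟨K, hW⟩
    obtain ⟨κ, hκ, hA⟩ := exists_abcWith hW
    have hA' := abcWith_mono (by linarith) (le_max_left K 1) hA
    obtain ⟨B, hB⟩ := exists_nat_gt (2 * max K 1)
    have hB0 : 0 < B := by
      have h1 : (1 : ℝ) ≤ max K 1 := le_max_right _ _
      have : (0 : ℝ) < B := by linarith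
      exact_mod_cast this
    obtain ⟨α, β, hα, hβ, H⟩ := key2 (max K 1) (le_max_right _ _) ⟨κ, hA'⟩ B hB (1 / 4) (by norm_num)
    exact ⟨B, hB0, α, β, 1 / 4, hα, hβ, by norm_num, by norm_num, H⟩
  · intro B α β ε hε hε1 hB H
    exact not_ineq hε hε1 (by omega) (by omega) (holds_iff.1 H)

end Pool.Agent.Results.MP_05f553_nt.SelfImprovement
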