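import Pool.Agent.N760.IT.C
import Pool.Agent.Results.MP_05f553_nt.MultiplicativeValues

/-!
# Philippon's inequality for the rationals with a coordinate near the members of almost all orbits of Euler's function

Let `φ_k` be the `k`-th iterate of Euler's function, `φ_0(m) = m`. Let `f` be a positive multiplicative function of at most
polynomial growth such that `f p ≤ M p` for the large primes `p`, with different values at different large primes; for example
the identity, Euler's function or the sum of the divisors. Let `G` be a function with steps bounded below by a positive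
constant and growth at most `v^d`, for example `G v = a v^d`. There is `K(m)` tending to infinity such that for almost all
`m`, for all `k ≤ K(m)`, with `v = f(φ_k(m))`, for EVERY integer `n` with `|n - G v| ≤ v^κ`, Philippon's inequality holds
(1) if `2 A d / α + κ < 1`: for ALL `x` and all `y` of height at most `n^A` with numerator `± n` or denominator `n`;
(2) if `d (2 γ + A / (α B)) + κ < 1` (every `α ≥ 1` is allowed): for all `x` of height at most `T n^γ` and these `y`.

The iterates of Euler's function are not multiplicative, their values form a thin set and are taken with very large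
multiplicities, and so this does not follow from the size of the set of the exceptional integers, which is only known to be at
most `X^(2 A / α + δ)` and `X^(2 γ + A / (α B) + δ)`, nor from the starting result `MultiplicativeValues` of this problem
(which is the case `k = 0`). The proof combines `Pool/Agent/N760/IT` (helper760) with the counts of the exceptional integers
in the starting results of this problem.
-/

set_option autoImplicit false

namespace Pool.Agent.Results.MP_05f553_nt.TotientOrbits

open Filter Topology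
open Pool.Agent.N733.TG (LM Expanding lm_totient lm_sigma expanding_pow)
open Pool.Agent.N760.IT (orb lm_id orbit_good_nat)
open Pool.Agent.N826.IT.Orb (AlmostAll almostAll_mono)

/-- the logarithmic height `log max (|a|, |b|)` of `r = a / b` (lowest terms) -/
noncomputable def ht (r : ℚ) : ℝ := Real.log (max |((r.num : ℤ) : ℝ)| ((r.den : ℕ) : ℝ))

/-- The inequality of the question for the pair `(x, y)`; the sums are over the primes which divide the numerator of
`x y ^ B + 1`. -/
def Holds (B : ℕ) (α β ε : ℝ) (x y : ℚ) : Prop :=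
  -(∑ p ∈ (x * y ^ B + 1).num.natAbs.primeFactors,
      Real.log ((padicNorm p (x * y ^ B + 1) : ℚ) : ℝ))
    ≤ α * (B : ℝ) * ht x + ε * (B : ℝ) * ht y
      + (B : ℝ) * (α * (B : ℝ) + ε) *
          (β + ∑ p ∈ (x * y ^ B + 1).num.natAbs.primeFactors, Real.log (p : ℝ))

/-- the height of a rational number -/
noncomputable def hgt (x : ℚ) : ℝ := max |((x.num : ℤ) : ℝ)| ((x.den : ℕ) : ℝ)

/-- the inequality holds for this `x` and all nonzero `y` of height at most `n ^ A` with numerator `± n` or
denominator `n` -/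
def Good (B : ℕ) (α β ε A : ℝ) (x : ℚ) (n : ℕ) : Prop :=
  ∀ y : ℚ, y ≠ 0 → x * y ^ B ≠ 1 → x * y ^ B ≠ -1 → (y.num.natAbs = n ∨ y.den = n) → hgt y ≤ (n : ℝ) ^ A →
    Holds B α β ε x y

lemma good_iff (B : ℕ) (α β ε A : ℝ) (x : ℚ) (n : ℕ) :
    Good B α β ε A x n ↔ MultiplicativeValues.Good B α β ε A x n := Iff.rfl

lemma good_zero (B : ℕ) (α β ε A : ℝ) (x : ℚ) : Good B α β ε A x 0 := by
  intro y hy _ _ h
  rcases h with h | h
  · exact absurd (Rat.num_eq_zero.1 (Int.natAbs_eq_zero.1 h)) hy
  · exact absurd h y.den_nz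

/-- **Philippon's inequality near the orbits of Euler's function.** Let `α ≥ 1`, `β ≥ 0`, `ε < 1/2`, `ε B ≥ 2`,
`A ≥ 1`, `κ ≥ 0`. Let `f` be multiplicative and positive, of at most polynomial growth, with `f p ≤ M p` at the large
primes, and injective there (`LM`), and let `G` have steps `≥ a > 0` and growth at most `v^d`. There is `K : ℕ → ℕ` tending to
infinity such that for almost all `m`, for all `k ≤ K(m)`, with `v = f(φ_k(m))` (`orb f k m`), for EVERY `n : ℕ` with
`|n - G v| ≤ v^κ` the inequality holds for all `y ≠ 0` of height at most `n^A` with numerator `± n` or denominator `n`, and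
(1) for ALL `x ≠ 0`, if `2 A d / α + κ < 1`;
(2) for all `x ≠ 0` of height at most `T n^γ`, if `d (2 γ + A / (α B)) + κ < 1` (`T` any constant, `γ ≥ 0`).
The identity, Euler's function and the sum of the divisors are examples of such functions `f`, and `a v^d` with `a > 0`,
`d ≥ 1` is an example of `G`. -/
theorem result (B : ℕ) (α β ε A κ : ℝ) (hα : 1 ≤ α) (hβ : 0 ≤ β) (hε : ε < 1 / 2) (hB : 2 ≤ ε * B) (hA : 1 ≤ A)
    (hκ : 0 ≤ κ) :
    (∀ f : ℕ → ℕ, LM f → ∀ (G : ℕ → ℝ) (d : ℝ), Expanding G d →
      (2 * A * d / α + κ < 1 → ∃ K : ℕ → ℕ, Tendsto K atTop atTop ∧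
        AlmostAll (fun m => ∀ k ≤ K m, ∀ n : ℕ, |(n : ℝ) - G (orb f k m)| ≤ (orb f k m : ℝ) ^ κ → ∀ x : ℚ, x ≠ 0 →
          Good B α β ε A x n)) ∧
      (∀ T γ : ℝ, 0 ≤ γ → d * (2 * γ + A / (α * B)) + κ < 1 → ∃ K : ℕ → ℕ, Tendsto K atTop atTop ∧
        AlmostAll (fun m => ∀ k ≤ K m, ∀ n : ℕ, |(n : ℝ) - G (orb f k m)| ≤ (orb f k m : ℝ) ^ κ → ∀ x : ℚ, x ≠ 0 →
          hgt x ≤ T * (n : ℝ) ^ γ → Good B α β ε A x n))) ∧
    (LM (fun m => m) ∧ LM Nat.totient ∧ LM (fun m => ∑ d ∈ m.divisors, d)) ∧
    ∀ a d : ℝ, 0 < a → 1 ≤ d → Expanding (fun v => a * (v : ℝ) ^ d) d := by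
  have hA0 : 0 < A := by linarith
  have hα0 : 0 < α := by linarith
  refine ⟨fun f hf G d hG => ⟨fun h1 => ?_, fun T γ hγ h1 => ?_⟩, ⟨lm_id, lm_totient, lm_sigma⟩,
    fun a d ha hd => expanding_pow ha hd⟩
  · obtain ⟨K, hK, hK2⟩ := orbit_good_nat (fun _ => True) (fun n => n ∉ SequenceHeights.Bad B α β ε A) hf hG
      (s := A * (2 / α)) (by positivity) hκ
      (by
        have : d * (A * (2 / α)) + κ = 2 * A * d / α + κ := by ring
        rw [this]
        exact h1) (fun δ hδ => by
        classical
        obtain ⟨C, hC⟩ := SequenceHeights.count B α β ε A hα hβ hε hB hA δ hδ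
        refine ⟨C, fun X hX => le_trans (le_of_eq ?_) (hC X hX)⟩
        congr 1
        rw [← Set.ncard_coe_finset]
        congr 1
        ext t
        simp only [Finset.coe_filter, Finset.mem_Ioc, Set.mem_ofPred_eq, not_not]
        exact ⟨fun h => ⟨⟨h.1, h.2.1⟩, h.2.2.2⟩, fun h => ⟨h.1.1, h.1.2, trivial, h.2⟩⟩)
    refine ⟨K, hK, almostAll_mono hK2 (fun m hm k hk n hw x hx => ?_)⟩
    rcases Nat.eq_zero_or_pos n with h0 | h0
    · rw [h0]
      exact good_zero _ _ _ _ _ _
    · have h2 := hm k hk n h0 trivial hw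
      by_contra hcon
      exact h2 ⟨x, hx, fun h => hcon ((good_iff _ _ _ _ _ _ _).2 ((MultiplicativeValues.good_iff _ _ _ _ _ _ _).2 h))⟩
  · have hT' : (1 : ℝ) ≤ max T 1 := le_max_right _ _
    obtain ⟨K, hK, hK2⟩ := orbit_good_nat (fun _ => True)
      (fun n => n ∉ MultiplicativeValues.BadG B α β ε A (max T 1) γ) hf hG
      (s := 2 * γ + A / (α * B)) (by positivity) hκ h1 (fun δ hδ => by
        classical
        obtain ⟨C, hC⟩ := MultiplicativeValues.countG B α β ε A (max T 1) γ hα hβ hε hB hA hT' hγ δ hδ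
        refine ⟨C, fun X hX => le_trans (le_of_eq ?_) (hC X hX)⟩
        congr 1
        rw [← Set.ncard_coe_finset]
        congr 1
        ext t
        simp only [Finset.coe_filter, Finset.mem_Ioc, Set.mem_ofPred_eq, not_not]
        exact ⟨fun h => ⟨⟨h.1, h.2.1⟩, h.2.2.2⟩, fun h => ⟨h.1.1, h.1.2, trivial, h.2⟩⟩)
    refine ⟨K, hK, almostAll_mono hK2 (fun m hm k hk n hw x hx hh => ?_)⟩
    rcases Nat.eq_zero_or_pos n with h0 | h0
    · rw [h0]
      exact good_zero _ _ _ _ _ _
    · have h2 := hm k hk n h0 trivial hw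
      by_contra hcon
      exact h2 ⟨x, hx, hh.trans (mul_le_mul_of_nonneg_right (le_max_left _ _) (by positivity)), hcon⟩

end Pool.Agent.Results.MP_05f553_nt.TotientOrbits
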